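import Pool.Agent.Helper28.HD.Defs

/-!
# MP_364488_co, module M5: sparse covers

`cover : WcolBound t → UQW t → CoverBound t`.
-/

namespace Pool.Agent.Helper5.HD

open SimpleGraph Pool.Agent.Helper28.HD

variable {V : Type} {G : SimpleGraph V} {t : ℕ → ℕ}

/-- The graph consisting of all edges of `G` inside `M`. -/
def inside (G : SimpleGraph V) (M : Set V) : SimpleGraph V where
  Adj u v := G.Adj u v ∧ u ∈ M ∧ v ∈ M
  symm := ⟨fun _ _ h => ⟨h.1.symm, h.2.2, h.2.1⟩⟩
  loopless := ⟨fun _ h => h.1.ne rfl⟩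

lemma inside_le (G : SimpleGraph V) (M : Set V) : inside G M ≤ G := fun _ _ h => h.1

lemma excl_mono {G G' : SimpleGraph V} (h : Excl G t) (hle : G' ≤ G) : Excl G' t := by
  rintro r ⟨f, P, hf, h1, h2, h3, h4⟩
  exact h r ⟨f, P, hf, h1, fun i j hij l hl => hle (h2 i j hij l hl), h3, h4⟩

lemma support_inside {M : Set V} {u v : V} (p : (inside G M).Walk u v) (hu : u ∈ M) :
    ∀ x ∈ p.support, x ∈ M := by
  induction p with
  | nil => intro x hx; simp at hx; exact hx ▸ hu
  | cons h p ih =>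
    intro x hx
    rw [Walk.support_cons, List.mem_cons] at hx
    rcases hx with rfl | hx
    · exact hu
    · exact ih h.2.2 x hx

lemma near_of_inside {M Z : Set V} {k : ℕ} {u v : V} (h : Near (inside G M) Z k u v)
    (hu : u ∈ M) : Near G (M ∩ Z) k u v := by
  obtain ⟨p, h1, h2⟩ := h
  refine ⟨p.mapLe (inside_le G M), by simpa using h1, fun x hx => ?_⟩
  have hx' : x ∈ p.support := by simpa using hx
  exact ⟨support_inside p hu x hx', h2 x hx'⟩

lemma near_inside {M Z : Set V} {k : ℕ} {u v : V} (h : Near G (M ∩ Z) k u v) :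
    Near (inside G M) Z k u v := by
  obtain ⟨p, h1, h2⟩ := h
  have he : ∀ e ∈ p.edges, e ∈ (inside G M).edgeSet := by
    intro e he
    induction e with
    | _ x y =>
      rw [SimpleGraph.mem_edgeSet]
      exact ⟨p.adj_of_mem_edges he, (h2 x (p.fst_mem_support_of_mem_edges he)).1,
        (h2 y (p.snd_mem_support_of_mem_edges he)).1⟩
  exact ⟨p.transfer _ he, by simpa using h1, fun x hx => (h2 x (by simpa using hx)).2⟩

lemma near_inside_univ {M : Set V} {k : ℕ} {u v : V} (h : Near G M k u v) :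
    Near (inside G M) Set.univ k u v :=
  near_inside (by simpa using h)

lemma near_of_inside_univ {M : Set V} {k : ℕ} {u v : V}
    (h : Near (inside G M) Set.univ k u v) (hu : u ∈ M) : Near G M k u v := by
  simpa using near_of_inside h hu

open Classical in
/-- No large set is shattered by the traces `{a ∈ A : Near G M r a b}`. -/
lemma shatter (h2 : UQW t) (r : ℕ) : ∃ N : ℕ, ∀ (V : Type) (G : SimpleGraph V), Excl G t →
    ∀ (M : Set V) (A : Finset V), (A : Set V) ⊆ M → ∀ 𝒯 : Finset (Finset V),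
      (∀ T ∈ 𝒯, ∃ b, T = A.filter (fun a => Near G M r a b)) →
      ∀ A' : Finset V, A' ⊆ A → 𝒯.Shatters A' → A'.card < N := by
  obtain ⟨s, hs⟩ := h2 (2 * r)
  obtain ⟨N, hN⟩ := hs (2 * 2 ^ (s * (r + 1)) + 1)
  refine ⟨N, fun V G hG M A hAM 𝒯 h𝒯 A' hA' hsh => ?_⟩
  by_contra hcard
  push Not at hcard
  obtain ⟨S, hScard, B, hBA, hBS, hBcard, hB⟩ :=
    hN V (inside G M) (excl_mono hG (inside_le G M)) A' hcard
  -- profiles
  let prof : V → Finset (V × ℕ) := fun a =>
    (S ×ˢ Finset.range (r + 1)).filter (fun x => Near G M x.2 a x.1)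
  have hmaps : ∀ a ∈ B, prof a ∈ (S ×ˢ Finset.range (r + 1)).powerset := by
    intro a _
    rw [Finset.mem_powerset]
    exact Finset.filter_subset _ _
  have hlt : (S ×ˢ Finset.range (r + 1)).powerset.card * 2 < B.card := by
    rw [Finset.card_powerset, Finset.card_product, Finset.card_range]
    have : 2 ^ (S.card * (r + 1)) ≤ 2 ^ (s * (r + 1)) :=
      Nat.pow_le_pow_right (by norm_num) (Nat.mul_le_mul_right _ hScard)
    omega
  obtain ⟨y, -, hy⟩ := Finset.exists_lt_card_fiber_of_mul_lt_card_of_maps_to hmaps hlt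
  obtain ⟨a1, ha1, a2, ha2, a3, ha3, h12, h13, h23⟩ := Finset.two_lt_card.1 hy
  simp only [Finset.mem_filter] at ha1 ha2 ha3
  -- the trace `{a1, a2}`
  have hsub : ({a1, a2} : Finset V) ⊆ A' := by
    intro x hx
    simp only [Finset.mem_insert, Finset.mem_singleton] at hx
    rcases hx with rfl | rfl
    · exact hBA ha1.1
    · exact hBA ha2.1
  obtain ⟨T, hT, hTA⟩ := hsh hsub
  obtain ⟨b, rfl⟩ := h𝒯 T hT
  have hb1 : Near G M r a1 b := by
    have : a1 ∈ A' ∩ A.filter (fun a => Near G M r a b) := by rw [hTA]; simp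
    simp only [Finset.mem_inter, Finset.mem_filter] at this
    exact this.2.2
  have hb2 : Near G M r a2 b := by
    have : a2 ∈ A' ∩ A.filter (fun a => Near G M r a b) := by rw [hTA]; simp
    simp only [Finset.mem_inter, Finset.mem_filter] at this
    exact this.2.2
  have hb3 : ¬ Near G M r a3 b := by
    intro h
    have : a3 ∈ A' ∩ A.filter (fun a => Near G M r a b) := by
      simp only [Finset.mem_inter, Finset.mem_filter]
      exact ⟨hBA ha3.1, hA' (hBA ha3.1), h⟩
    rw [hTA] at this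
    simp only [Finset.mem_insert, Finset.mem_singleton] at this
    rcases this with h | h
    · exact h13 h.symm
    · exact h23 h.symm
  have key : ∀ a, a ∈ B ∧ prof a = y → Near G M r a b → Near G (M ∩ (S : Set V)ᶜ) r a b := by
    rintro a ⟨haB, hay⟩ ⟨p, hp1, hp2⟩
    refine ⟨p, hp1, fun x hx => ⟨hp2 x hx, ?_⟩⟩
    intro hxS
    obtain ⟨k, l, hkl, hk, hl⟩ := near_split p hp1 hp2 hx
    have : (x, k) ∈ prof a := by
      simp only [prof, Finset.mem_filter, Finset.mem_product, Finset.mem_range]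
      exact ⟨⟨by simpa using hxS, by omega⟩, hk⟩
    rw [hay, ← ha3.2] at this
    simp only [prof, Finset.mem_filter, Finset.mem_product, Finset.mem_range] at this
    exact hb3 ((this.2.trans hl).mono hkl subset_rfl)
  have hn1 := key a1 ha1 hb1
  have hn2 := key a2 ha2 hb2
  have hn : Near G (M ∩ (S : Set V)ᶜ) (2 * r) a1 a2 :=
    (hn1.trans hn2.symm).mono (by omega) subset_rfl
  exact hB a1 ha1.1 a2 ha2.1 h12 (near_inside hn)

lemma sum_pow_le (n N : ℕ) (hn : 1 ≤ n) : ∑ k ∈ Finset.range N, n ^ k ≤ (n + 1) ^ N := by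
  induction N with
  | zero => simp
  | succ N ih =>
    rw [Finset.sum_range_succ, pow_succ]
    have h : n ^ N ≤ (n + 1) ^ N := Nat.pow_le_pow_left (by omega) N
    nlinarith [Nat.one_le_pow N (n + 1) (by omega)]

open Classical in
lemma card_traces {N : ℕ} {A : Finset V} (hA : 1 ≤ A.card) {𝒯 : Finset (Finset V)}
    (hT : ∀ T ∈ 𝒯, T ⊆ A) (h : ∀ A' : Finset V, A' ⊆ A → 𝒯.Shatters A' → A'.card < N) :
    𝒯.card ≤ (A.card + 1) ^ N := by
  refine (Finset.card_le_card_shatterer 𝒯).trans ?_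
  have hsub : 𝒯.shatterer ⊆ (Finset.range N).biUnion (fun k => A.powersetCard k) := by
    intro B hB
    rw [Finset.mem_shatterer] at hB
    have hBA : B ⊆ A := by
      obtain ⟨T, hT', hBT⟩ := hB (subset_refl B)
      exact (Finset.inter_eq_left.1 hBT).trans (hT T hT')
    rw [Finset.mem_biUnion]
    exact ⟨B.card, Finset.mem_range.2 (h B hBA hB), Finset.mem_powersetCard.2 ⟨hBA, rfl⟩⟩
  refine (Finset.card_le_card hsub).trans (Finset.card_biUnion_le.trans ?_)
  refine le_trans (Finset.sum_le_sum (fun k _ => ?_)) (sum_pow_le A.card N hA)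
  rw [Finset.card_powersetCard]
  exact Nat.choose_le_pow _ _

lemma arith {n N r c j k X A1 : ℕ} (hn : 1 ≤ n) (hA1 : A1 ≤ n + (n + 1) ^ N)
    (hX : X ≤ A1 + n * A1 * (r + 1)) (hk : k ^ (j * (N + 2)) ≤ c * X) :
    k ^ j ≤ (4 * c * (r + 1)) * n := by
  have hA1' : A1 ≤ 2 * (n + 1) ^ (N + 1) := by
    have h1 : n ≤ (n + 1) ^ (N + 1) := by
      calc n ≤ n + 1 := by omega
        _ = (n + 1) ^ 1 := by ring
        _ ≤ (n + 1) ^ (N + 1) := Nat.pow_le_pow_right (by omega) (by omega)
    have h2 : (n + 1) ^ N ≤ (n + 1) ^ (N + 1) := Nat.pow_le_pow_right (by omega) (by omega)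
    omega
  have hX' : X ≤ 2 * (r + 1) * (n + 1) ^ (N + 2) := by
    calc X ≤ A1 * (1 + n * (r + 1)) := by nlinarith
      _ ≤ (2 * (n + 1) ^ (N + 1)) * ((n + 1) * (r + 1)) := by
          apply Nat.mul_le_mul hA1'; nlinarith
      _ = 2 * (r + 1) * (n + 1) ^ (N + 2) := by ring
  have h2n : (n + 1) ^ (N + 2) ≤ (2 * n) ^ (N + 2) := Nat.pow_le_pow_left (by omega) _
  have hc : c * (2 * (r + 1)) ≤ (c * (2 * (r + 1))) ^ (N + 2) :=
    Nat.le_self_pow (by omega) _
  have : (k ^ j) ^ (N + 2) ≤ ((4 * c * (r + 1)) * n) ^ (N + 2) := by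
    calc (k ^ j) ^ (N + 2) = k ^ (j * (N + 2)) := (pow_mul k j (N + 2)).symm
      _ ≤ c * X := hk
      _ ≤ c * (2 * (r + 1) * (2 * n) ^ (N + 2)) :=
          Nat.mul_le_mul_left _ (hX'.trans (Nat.mul_le_mul_left _ h2n))
      _ = (c * (2 * (r + 1))) * (2 * n) ^ (N + 2) := by ring
      _ ≤ (c * (2 * (r + 1))) ^ (N + 2) * (2 * n) ^ (N + 2) := Nat.mul_le_mul_right _ hc
      _ = ((4 * c * (r + 1)) * n) ^ (N + 2) := by rw [← mul_pow]; congr 1; ring
  exact (Nat.pow_le_pow_iff_left (by omega)).1 this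

open Classical in
/-- Module M5: sparse covers. -/
theorem cover (t : ℕ → ℕ) (h1 : WcolBound t) (h2 : UQW t) : CoverBound t := by
  intro r j hj
  obtain ⟨N, hN⟩ := shatter h2 r
  obtain ⟨c, hc⟩ := h1 (2 * r) (j * (N + 2)) (Nat.mul_pos (by omega) (by omega))
  refine ⟨4 * c * (r + 1), fun V G hG M A hAM => ?_⟩
  rcases A.eq_empty_or_nonempty with rfl | hne
  · exact ⟨id, by simp, fun b => by simp; omega⟩
  have hn : 1 ≤ A.card := hne.card_pos
  -- the traces and their representatives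
  let tr : V → Finset V := fun b => A.filter (fun a => Near G M r a b)
  let 𝒯 : Finset (Finset V) := A.powerset.filter (fun T => ∃ b, T = tr b)
  have h𝒯 : ∀ T ∈ 𝒯, ∃ b, T = tr b := fun T hT => (Finset.mem_filter.1 hT).2
  have hcardT : 𝒯.card ≤ (A.card + 1) ^ N := by
    refine card_traces hn (fun T hT => ?_) (hN V G hG M A hAM 𝒯 h𝒯)
    exact Finset.mem_powerset.1 (Finset.mem_filter.1 hT).1
  have hmem𝒯 : ∀ b, tr b ∈ 𝒯 := fun b =>
    Finset.mem_filter.2 ⟨Finset.mem_powerset.2 (Finset.filter_subset _ _), b, rfl⟩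
  have hex : ∀ T : Finset V, ∃ b, T ∈ 𝒯 → T = tr b := by
    intro T
    by_cases hT : T ∈ 𝒯
    · obtain ⟨b, hb⟩ := h𝒯 T hT
      exact ⟨b, fun _ => hb⟩
    · exact ⟨hne.choose, fun h => absurd h hT⟩
  choose rep hrep using hex
  let A1 : Finset V := A ∪ 𝒯.image rep
  have hA1card : A1.card ≤ A.card + (A.card + 1) ^ N :=
    (Finset.card_union_le _ _).trans (Nat.add_le_add_left (Finset.card_image_le.trans hcardT) _)
  -- the walks
  have hwalk : ∀ x : V × V, ∃ l : Finset V, l.card ≤ r + 1 ∧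
      (Near G M r x.1 x.2 → Near G (M ∩ (l : Set V)) r x.1 x.2) := by
    intro x
    by_cases hx : Near G M r x.1 x.2
    · obtain ⟨p, hp1, hp2⟩ := hx
      refine ⟨p.support.toFinset, ?_, fun _ => ⟨p, hp1, fun y hy => ⟨hp2 y hy, by simpa using hy⟩⟩⟩
      refine (List.toFinset_card_le _).trans ?_
      rw [Walk.length_support]
      omega
    · exact ⟨∅, by simp, fun h => absurd h hx⟩
  choose L hL1 hL2 using hwalk
  let X : Finset V := A1 ∪ (A ×ˢ A1).biUnion L
  have hXcard : X.card ≤ A1.card + A.card * A1.card * (r + 1) := by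
    refine (Finset.card_union_le _ _).trans (Nat.add_le_add_left ?_ _)
    refine (Finset.card_biUnion_le_card_mul _ _ (r + 1) (fun x _ => hL1 x)).trans ?_
    rw [Finset.card_product]
  have hAX : A ⊆ X := fun a ha => Finset.mem_union_left _ (Finset.mem_union_left _ ha)
  let G' : SimpleGraph V := inside G (M ∩ (X : Set V))
  have hG' : Excl G' t := excl_mono hG (inside_le _ _)
  have hA' : ∀ a ∈ A, a ∈ M ∩ (X : Set V) := fun a ha => ⟨hAM ha, hAX ha⟩
  have hnear : ∀ a ∈ A, ∀ b ∈ A1, Near G M r a b → Near G' Set.univ r a b := by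
    intro a ha b hb h
    apply near_inside_univ
    refine (hL2 (a, b) h).mono le_rfl ?_
    rintro x ⟨hxM, hxL⟩
    refine ⟨hxM, ?_⟩
    have : x ∈ X := by
      refine Finset.mem_union_right _ (Finset.mem_biUnion.2 ⟨(a, b), ?_, hxL⟩)
      exact Finset.mem_product.2 ⟨ha, hb⟩
    exact this
  obtain ⟨π, -, hπ⟩ := hc V G' hG' X (fun u v h => h.2.1.2)
  -- the keys
  have hkey : ∀ a, ∃ y, Near G' Set.univ r a y ∧ ∀ z, Near G' Set.univ r a z → π y ≤ π z := by
    intro a
    have hne' : ({y | Near G' Set.univ r a y} : Set V).Nonempty := ⟨a, near_refl (Set.mem_univ _)⟩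
    obtain ⟨y, hy, hmin⟩ := WellFounded.has_min (measure π).wf _ hne'
    exact ⟨y, hy, fun z hz => not_lt.1 (hmin z hz)⟩
  choose key hkey1 hkey2 using hkey
  refine ⟨key, fun a ha => ?_, fun b => ?_⟩
  · exact (near_of_inside_univ (hkey1 a) (hA' a ha)).mono le_rfl Set.inter_subset_left
  · -- pass to the representative
    have hT : tr b ∈ 𝒯 := hmem𝒯 b
    set b' := rep (tr b) with hb'
    have htr : tr b = tr b' := hrep (tr b) hT
    have hb'A1 : b' ∈ A1 := Finset.mem_union_right _ (Finset.mem_image_of_mem _ hT)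
    have hb'X : b' ∈ X := Finset.mem_union_left _ hb'A1
    have hsub : (tr b).image key ⊆ X.filter (fun u => WR G' π (2 * r) b' u) := by
      intro y hy
      obtain ⟨a, ha, rfl⟩ := Finset.mem_image.1 hy
      rw [htr] at ha
      obtain ⟨haA, hab⟩ := Finset.mem_filter.1 ha
      have hab' := hnear a haA b' hb'A1 hab
      rw [Finset.mem_filter]
      constructor
      · have := (near_of_inside_univ (hkey1 a) (hA' a haA)).right_mem
        exact this.2
      · obtain ⟨p, hp1, hp2⟩ := hab'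
        obtain ⟨q, hq1, hq2⟩ := hkey1 a
        refine ⟨p.reverse.append q, by simp; omega, fun x hx => ?_⟩
        rw [Walk.mem_support_append_iff] at hx
        rcases hx with hx | hx
        · exact hkey2 a x (near_of_mem_support p hp1 hp2 (by simpa using hx))
        · exact hkey2 a x (near_of_mem_support q hq1 hq2 hx)
    refine arith hn hA1card hXcard (le_trans ?_ (hπ b' hb'X))
    exact Nat.pow_le_pow_left (Finset.card_le_card hsub) _

end Pool.Agent.Helper5.HD
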